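import Pool.Agent.helper33.GR2.Spec

/-!
# Module CSM of project g2 (helper30): the sum of the depths
-/

set_option autoImplicit false

open Complex Metric Set Filter Topology MeasureTheory
open MPS (om)
open PPS (pre TT fd)
open XPS (Df er dens tau)
open Pool.Agent.helper16.Multibrot

noncomputable section

namespace GR

/-- a real number at most `p` is at most the number of `s < p` below it. -/
theorem CSM_count (p : ℕ) (x : ℝ) (hx : x ≤ p) :
    max x 0 ≤ (((Finset.range p).filter (fun s : ℕ => (s : ℝ) < x)).card : ℝ) := by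
  rcases le_or_gt x 0 with h0 | h0
  · rw [max_eq_right h0]
    positivity
  · rw [max_eq_left h0.le]
    have hsub : Finset.range ⌈x⌉₊ ⊆ (Finset.range p).filter (fun s : ℕ => (s : ℝ) < x) := by
      intro s hs
      rw [Finset.mem_range] at hs
      have h1 : (s : ℝ) < x := Nat.lt_ceil.1 hs
      simp only [Finset.mem_filter, Finset.mem_range]
      refine ⟨?_, h1⟩
      have h2 : (s : ℝ) < (p : ℝ) := lt_of_lt_of_le h1 hx
      exact_mod_cast h2
    have hc := Finset.card_le_card hsub
    rw [Finset.card_range] at hc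
    calc x ≤ (⌈x⌉₊ : ℝ) := Nat.le_ceil x
      _ ≤ _ := by exact_mod_cast hc

/-- the number of `k` with `s < y k`. -/
theorem CSM_level (p : ℕ) (y : ℕ → ℝ) (hm : ∀ m t, 1 ≤ m → 1 ≤ t → min (y m) (y (m + t)) ≤ t) (s : ℕ) :
    (((Finset.Icc 1 p).filter (fun k : ℕ => (s : ℝ) < y k)).card : ℝ) ≤ 1 + p / ((s : ℝ) + 1) := by
  have hcard : ((Finset.Icc 1 p).filter (fun k : ℕ => (s : ℝ) < y k)).card ≤
      (Finset.range (p / (s + 1) + 1)).card := by
    apply Finset.card_le_card_of_injOn (fun k => k / (s + 1))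
    · intro k hk
      simp only [Finset.coe_filter, Finset.mem_Icc, Set.mem_ofPred_eq] at hk
      simp only [Finset.coe_range, Set.mem_Iio]
      exact Nat.lt_succ_of_le (Nat.div_le_div_right hk.1.2)
    · have key : ∀ k k' : ℕ, 1 ≤ k → (s : ℝ) < y k → (s : ℝ) < y k' → k < k' → k / (s + 1) < k' / (s + 1) := by
        intro k k' hk1 hyk hyk' hlt
        have h1 := hm k (k' - k) hk1 (by omega)
        rw [Nat.add_sub_cancel' hlt.le] at h1
        have h2 : (s : ℝ) < ((k' - k : ℕ) : ℝ) := lt_of_lt_of_le (lt_min hyk hyk') h1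
        have h3 : s < k' - k := by exact_mod_cast h2
        have h4 : k + (s + 1) ≤ k' := by omega
        calc k / (s + 1) < k / (s + 1) + 1 := Nat.lt_succ_self _
          _ = (k + (s + 1)) / (s + 1) := (Nat.add_div_right k (Nat.succ_pos s)).symm
          _ ≤ k' / (s + 1) := Nat.div_le_div_right h4
      intro k hk k' hk' heq
      simp only [Finset.coe_filter, Finset.mem_Icc, Set.mem_ofPred_eq] at hk hk'
      rcases lt_trichotomy k k' with h | h | h
      · exact absurd heq (key k k' hk.1.1 hk.2 hk'.2 h).ne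
      · exact h
      · exact absurd heq (key k' k hk'.1.1 hk'.2 hk.2 h).ne'
  rw [Finset.card_range] at hcard
  have h5 : ((p / (s + 1) : ℕ) : ℝ) ≤ (p : ℝ) / ((s + 1 : ℕ) : ℝ) := Nat.cast_div_le
  have h6 : (((Finset.Icc 1 p).filter (fun k : ℕ => (s : ℝ) < y k)).card : ℝ) ≤ ((p / (s + 1) + 1 : ℕ) : ℝ) := by
    exact_mod_cast hcard
  push_cast at h5 h6
  linarith

theorem CSM : CSM_stmt := by
  intro p y hp hy hm
  have h1 : ∀ k ∈ Finset.Icc 1 p, max (y k) 0 ≤
      (((Finset.range p).filter (fun s : ℕ => (s : ℝ) < y k)).card : ℝ) := by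
    intro k hk
    rw [Finset.mem_Icc] at hk
    exact CSM_count p (y k) ((hy k hk.1).trans (by exact_mod_cast hk.2))
  have h2 : ∑ k ∈ Finset.Icc 1 p, (((Finset.range p).filter (fun s : ℕ => (s : ℝ) < y k)).card : ℝ) =
      ∑ s ∈ Finset.range p, (((Finset.Icc 1 p).filter (fun k : ℕ => (s : ℝ) < y k)).card : ℝ) := by
    simp only [Finset.card_filter, Nat.cast_sum]
    exact Finset.sum_comm
  have h3 : ∑ s ∈ Finset.range p, (1 + (p : ℝ) / ((s : ℝ) + 1)) = p + p * (harmonic p : ℝ) := by
    rw [Finset.sum_add_distrib]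
    simp only [Finset.sum_const, Finset.card_range, nsmul_eq_mul, mul_one]
    congr 1
    unfold harmonic
    push_cast
    rw [Finset.mul_sum]
    apply Finset.sum_congr rfl
    intro s _
    rw [div_eq_mul_inv]
  have h4 : (harmonic p : ℝ) ≤ 1 + Real.log p := by exact_mod_cast harmonic_le_one_add_log p
  have hp0 : (0 : ℝ) ≤ p := Nat.cast_nonneg p
  calc ∑ k ∈ Finset.Icc 1 p, max (y k) 0
      ≤ ∑ k ∈ Finset.Icc 1 p, (((Finset.range p).filter (fun s : ℕ => (s : ℝ) < y k)).card : ℝ) :=
        Finset.sum_le_sum h1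
    _ = ∑ s ∈ Finset.range p, (((Finset.Icc 1 p).filter (fun k : ℕ => (s : ℝ) < y k)).card : ℝ) := h2
    _ ≤ ∑ s ∈ Finset.range p, (1 + (p : ℝ) / ((s : ℝ) + 1)) :=
        Finset.sum_le_sum fun s _ => CSM_level p y hm s
    _ = p + p * (harmonic p : ℝ) := h3
    _ ≤ p + p * (1 + Real.log p) := by
        have := mul_le_mul_of_nonneg_left h4 hp0
        linarith
    _ = p * (2 + Real.log p) := by ring

end GR
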